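import Pool.Agent.Q292.GPConstr
import Mathlib.Combinatorics.SimpleGraph.Clique

/-!
# The vertex cover number of all generalized Petersen graphs is at most `n + ⌈n/5⌉`
-/

set_option autoImplicit false

namespace Pool.Agent.Results.MP_86031e_co.VertexCoverAll

open Finset Pool.Agent.Q292.GP

/-- The generalized Petersen graph `P(n,k)`: the vertex `(i, false)` is `u_i`, the vertex `(i, true)` is
`v_i`, indices modulo `n`, and the edges are `u_i u_{i+1}`, `u_i v_i`, `v_i v_{i+k}`. -/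
def P (n k : ℕ) : SimpleGraph (ZMod n × Bool) :=
  SimpleGraph.fromRel fun x y =>
    (x.2 = false ∧ y.2 = false ∧ y.1 = x.1 + 1) ∨
    (x.2 = false ∧ y.2 = true ∧ y.1 = x.1) ∨
    (x.2 = true ∧ y.2 = true ∧ y.1 = x.1 + (k : ZMod n))

/-- `C` is a vertex cover: it meets every edge. -/
def IsCover {V : Type} (G : SimpleGraph V) (C : Finset V) : Prop :=
  ∀ x y, G.Adj x y → x ∈ C ∨ y ∈ C

/-- the vertex cover number: the least size of a vertex cover -/
noncomputable def β {V : Type} (G : SimpleGraph V) : ℕ :=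
  sInf {m | ∃ C : Finset V, IsCover G C ∧ C.card = m}

/-- the set of vertices given by an outer and an inner index set -/
def verts {n : ℕ} (A B : Finset (ZMod n)) : Finset (ZMod n × Bool) :=
  A.image (fun i => (i, false)) ∪ B.image (fun i => (i, true))

theorem mem_verts {n : ℕ} (A B : Finset (ZMod n)) (x : ZMod n × Bool) :
    x ∈ verts A B ↔ (x.2 = false ∧ x.1 ∈ A) ∨ (x.2 = true ∧ x.1 ∈ B) := by
  unfold verts
  obtain ⟨i, b⟩ := x
  cases b <;> simp

theorem card_verts {n : ℕ} (A B : Finset (ZMod n)) : (verts A B).card = A.card + B.card := by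
  unfold verts
  rw [card_union_of_disjoint, card_image_of_injective, card_image_of_injective]
  · intro a b h; simpa using h
  · intro a b h; simpa using h
  · rw [Finset.disjoint_left]
    intro x hx hx'
    rw [mem_image] at hx hx'
    obtain ⟨a, _, ha⟩ := hx
    obtain ⟨b, _, hb⟩ := hx'
    have := ha.trans hb.symm
    simp at this

theorem indep {n k : ℕ} (A B : Finset (ZMod n)) (h : Ind (k : ZMod n) A B) :
    ∀ x ∈ verts A B, ∀ y ∈ verts A B, ¬ (P n k).Adj x y := by
  have key : ∀ x ∈ verts A B, ∀ y ∈ verts A B,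
      ¬ ((x.2 = false ∧ y.2 = false ∧ y.1 = x.1 + 1) ∨ (x.2 = false ∧ y.2 = true ∧ y.1 = x.1) ∨
        (x.2 = true ∧ y.2 = true ∧ y.1 = x.1 + (k : ZMod n))) := by
    intro x hx y hy
    rw [mem_verts] at hx hy
    rintro (⟨h1, h2, h3⟩ | ⟨h1, h2, h3⟩ | ⟨h1, h2, h3⟩)
    · rcases hx with ⟨_, hx⟩ | ⟨h, _⟩
      · rcases hy with ⟨_, hy⟩ | ⟨h, _⟩
        · rw [h3] at hy; exact h.outer _ hx hy
        · rw [h2] at h; simp at h
      · rw [h1] at h; simp at h
    · rcases hx with ⟨_, hx⟩ | ⟨h, _⟩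
      · rcases hy with ⟨h, _⟩ | ⟨_, hy⟩
        · rw [h2] at h; simp at h
        · rw [h3] at hy; exact h.spoke _ hx hy
      · rw [h1] at h; simp at h
    · rcases hx with ⟨h, _⟩ | ⟨_, hx⟩
      · rw [h1] at h; simp at h
      · rcases hy with ⟨h, _⟩ | ⟨_, hy⟩
        · rw [h2] at h; simp at h
        · rw [h3] at hy; exact h.inner _ hx hy
  intro x hx y hy hadj
  rw [P, SimpleGraph.fromRel_adj] at hadj
  rcases hadj.2 with h' | h'
  · exact key x hx y hy h'
  · exact key y hy x hx h'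

/-- For all `n ≥ 3` and `1 ≤ k < n/2` the vertex cover number of `P(n,k)` is at most `n + ⌈n/5⌉`, and its
independence number is at least `⌊4n/5⌋`. -/
theorem result (n k : ℕ) (hn : 3 ≤ n) (hk : 1 ≤ k) (hkn : 2 * k < n) :
    β (P n k) ≤ n + ⌈(n : ℚ) / 5⌉₊ ∧ ⌊4 * (n : ℚ) / 5⌋₊ ≤ (P n k).indepNum := by
  have : NeZero n := ⟨by omega⟩
  classical
  obtain ⟨A, B, hI, hc⟩ := exists_ind hn hk hkn
  have hind := indep A B hI
  have hcard := card_verts A B
  have hceil : ⌈(n : ℚ) / 5⌉₊ = (n + 4) / 5 := by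
    rw [Nat.ceil_eq_iff (by omega)]
    have h1 : 5 * ((n + 4) / 5) ≤ n + 4 := Nat.mul_div_le _ _
    have h2 : n ≤ 5 * ((n + 4) / 5) := by omega
    have h1' : (5 : ℚ) * (((n + 4) / 5 : ℕ) : ℚ) ≤ n + 4 := by exact_mod_cast h1
    have h2' : (n : ℚ) ≤ 5 * (((n + 4) / 5 : ℕ) : ℚ) := by exact_mod_cast h2
    have h3 : (((n + 4) / 5 - 1 : ℕ) : ℚ) = (((n + 4) / 5 : ℕ) : ℚ) - 1 := by
      rw [Nat.cast_sub (by omega)]; simp
    constructor
    · rw [h3]; linarith
    · linarith
  have hfloor : ⌊4 * (n : ℚ) / 5⌋₊ = 4 * n / 5 := by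
    rw [Nat.floor_eq_iff (by positivity)]
    have h1 : 5 * (4 * n / 5) ≤ 4 * n := Nat.mul_div_le _ _
    have h2 : 4 * n < 5 * (4 * n / 5) + 5 := by omega
    have h1' : (5 : ℚ) * ((4 * n / 5 : ℕ) : ℚ) ≤ 4 * n := by exact_mod_cast h1
    have h2' : (4 * n : ℚ) < 5 * ((4 * n / 5 : ℕ) : ℚ) + 5 := by exact_mod_cast h2
    constructor
    · linarith
    · linarith
  constructor
  · refine le_trans (Nat.sInf_le ⟨(verts A B)ᶜ, ?_, rfl⟩) ?_
    · intro x y hadj
      by_contra hcon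
      rw [not_or, mem_compl, mem_compl, not_not, not_not] at hcon
      exact hind x hcon.1 y hcon.2 hadj
    · rw [card_compl, Fintype.card_prod, ZMod.card, Fintype.card_bool, hcard, hceil]
      omega
  · rw [hfloor]
    refine le_trans hc ?_
    rw [← hcard]
    refine SimpleGraph.IsIndepSet.card_le_indepNum (t := verts A B) ?_
    intro x hx y hy _
    exact hind x hx y hy

end Pool.Agent.Results.MP_86031e_co.VertexCoverAll
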